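import Pool.Agent.H.MP_76bd4c_lc.C

set_option autoImplicit false

namespace Pool.Agent.Results.MP_76bd4c_lc.NotDec

open Classical in
/-- characteristic function -/
noncomputable def ch (X : Set ℕ) (n : ℕ) : Bool := decide (n ∈ X)

/-- Turing reducibility of sets -/
def LeT (A C : Set ℕ) : Prop :=
  TuringReducible (fun n => Part.some (ch A n).toNat) (fun n => Part.some (ch C n).toNat)

def Intro (A : Set ℕ) : Prop := A.Infinite ∧ ∀ C ⊆ A, C.Infinite → LeT A C

/-- the functional `Φ` (a set of triples: oracle string, input, output) computes `A` from `C` -/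
def Comp (Φ : List Bool × ℕ × Bool → Prop) (C A : Set ℕ) : Prop :=
  ∀ x b, (∃ n, Φ ((List.range n).map (ch C), x, b)) ↔ ch A x = b

def UI (A B : Set ℕ) : Prop := ∃ Φ, REPred Φ ∧ ∀ C ⊆ B, C.Infinite → Comp Φ C A

open Pool.Agent.H.MP_76bd4c_lc

theorem result : ∃ A : Set ℕ, Intro A ∧
    ¬ ∃ (n : ℕ) (B : ℕ → Set ℕ), A = (⋃ i ≤ n, B i) ∧ ∀ i ≤ n, UI A (B i) := by
  obtain ⟨A, h1, h2, h3⟩ := core (ι := {p : List Bool × ℕ × Bool → Prop // REPred p})
    (fun e x C => ∃ n, e.1 ((List.range n).map (ch C), x, true)) fun e x C ⟨n, hn⟩ =>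
      ⟨n, fun C' h => ⟨n, by
        rwa [← List.map_congr_left (f := ch C) fun i hi => by
          simp [ch, h i (List.mem_range.1 hi)]]⟩⟩
  have e : ch {x | A x = true} = A := funext fun x => by simp [ch]
  refine ⟨_, ⟨h2, fun C hC inf => ?_⟩, fun ⟨n, B, k1, k2⟩ => h3 (n + 1) B
    (fun x hx => by simpa [Nat.lt_succ_iff] using k1.le hx) fun i hi => ?_⟩
  · rw [LeT, e]
    exact red h1 (fun x hx => hC (by simpa [ch] using hx)) (by simpa [ch] using inf)
  · obtain ⟨Φ, l1, l2⟩ := k2 i (Nat.lt_succ_iff.1 hi)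
    exact ⟨⟨Φ, l1⟩, fun C hC inf x => e ▸ l2 C hC inf x true⟩

end Pool.Agent.Results.MP_76bd4c_lc.NotDec
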